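import Pool.Agent.QSB.StmtsS

/-!
# Squad QSB, row S3A
-/

set_option autoImplicit false

namespace Pool.Agent.QSB.H59

open Matrix Finset Pool.Agent.QSX Pool.Agent.QSB

theorem s3a (hRYS : RysStmt) (hWTR : WtrStmt) (hGNS : GnsStmt) : S3aStmt := by
  intro X hS hR h ρ hρ
  obtain ⟨R⟩ := hR
  have hray := hRYS X hS
  have hrtv : ∀ w : R.ι, RtV X (R.rt w) (R.e w) := fun w =>
    ⟨⟨by rw [← R.span_e]; exact Submodule.subset_span ⟨w, rfl⟩, R.wt w⟩, R.lin.ne_zero w⟩
  by_cases hs : ∃ α, Smp X α ∧ ∃ c : ℝ, ρ = c • α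
  · obtain ⟨α, hα, c, hc⟩ := hs
    have hroot : IsRt X (c • α) := hc ▸ hρ
    rcases hray α c hα.1 hroot with h1 | h1 | h1
    · rw [h1, one_smul] at hc
      rw [hc]
      rcases h α hα with h2 | h2 | h2
      · exact Or.inr (Or.inr (Or.inl h2))
      · exact Or.inr (Or.inr (Or.inr (Or.inl h2)))
      · exact Or.inr (Or.inr (Or.inr (Or.inr h2)))
    · rw [h1] at hc
      exact Or.inr (Or.inl ⟨α, hα.1, hc⟩)
    · exfalso
      apply hα.2 ρ ρ hρ hρ
      rw [hc, h1, ← add_smul]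
      norm_num
  · left
    intro x hx
    have hx1 := (hWTR X R ρ).1 x hx.1
    refine Submodule.span_le.2 ?_ hx1
    rintro _ ⟨t, ht, rfl⟩
    have ht' : R.rt t = ρ := ht
    have hg := hGNS X hS R t (fun α hα c hc => hs ⟨α, hα, c, by rw [← ht', hc]⟩)
    refine Submodule.span_le.2 ?_ hg
    rintro _ ⟨w, w', hw, hww, rfl⟩
    apply Submodule.subset_span
    refine ⟨R.rt w, R.rt w', R.e w, R.e w', ⟨hw, fun c hc => ?_⟩, by rw [hww, ht'], hrtv w,
      hrtv w', rfl⟩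
    by_cases h0 : c = 0
    · rw [h0, zero_smul] at hc
      have hr : IsRt X (R.rt w') := ⟨_, hrtv w'⟩
      have hr2 : IsRt X ((3 : ℝ) • R.rt w') := by
        rw [hc, smul_zero]
        rw [hc] at hr
        exact hr
      rcases hray _ 3 hr hr2 with h1 | h1 | h1 <;> norm_num at h1
    · apply hw c⁻¹
      rw [hc, smul_smul, inv_mul_cancel₀ h0, one_smul]

end Pool.Agent.QSB.H59
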